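import Pool.Agent.R291.QDMain

/-!
# MP_e732b6_an, Q1: quasi-disjointness from all ergodic systems and from itself

For every countable group `G` and every `G` system `(X, μ)` the following are equivalent:
* `(X, μ)` is quasi-disjoint from every ergodic `G` system;
* `(X, μ)` is quasi-disjoint from every `G` system;
* `(X, μ)` is quasi-disjoint from itself.
-/

namespace Pool.Agent.Results.MP_e732b6_an.SelfQuasiDisjoint

open MeasureTheory Pool.Agent.R291.QD

universe u v w

theorem result :
    ∀ (G : Type u) [Group G] [Countable G] (X : Type v) [TopologicalSpace X] [CompactSpace X]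
      [TopologicalSpace.MetrizableSpace X] [MeasurableSpace X] [BorelSpace X] [MulAction G X]
      [ContinuousConstSMul G X] (μ : Measure X), IsSystem G μ →
      ((∀ (Y : Type v) [TopologicalSpace Y] [CompactSpace Y]
          [TopologicalSpace.MetrizableSpace Y] [MeasurableSpace Y] [BorelSpace Y] [MulAction G Y]
          [ContinuousConstSMul G Y] (ν : Measure Y), IsSystem G ν → IsErgodicSystem G ν →
          QuasiDisjoint G μ ν) ↔ QuasiDisjoint G μ μ) ∧
      (QuasiDisjoint G μ μ →
        ∀ (Y : Type w) [TopologicalSpace Y] [CompactSpace Y]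
          [TopologicalSpace.MetrizableSpace Y] [MeasurableSpace Y] [BorelSpace Y] [MulAction G Y]
          [ContinuousConstSMul G Y] (ν : Measure Y), IsSystem G ν → QuasiDisjoint G μ ν) := by
  intro G _ _ X _ _ _ _ _ _ _ μ hμ
  let := TopologicalSpace.metrizableSpaceMetric X
  have hstd : StandardBorelSpace X := inferInstance
  have := hμ.isProb
  have hall : QuasiDisjoint G μ μ → ∀ (Y : Type w) [TopologicalSpace Y] [CompactSpace Y]
          [TopologicalSpace.MetrizableSpace Y] [MeasurableSpace Y] [BorelSpace Y] [MulAction G Y]
          [ContinuousConstSMul G Y] (ν : Measure Y), IsSystem G ν → QuasiDisjoint G μ ν := by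
    intro h Y _ _ _ _ _ _ _ ν hν
    have := hν.isProb
    exact (quasiDisjoint_of_self hν hμ h).symm
  refine ⟨⟨fun h => ?_, fun h Y _ _ _ _ _ _ _ ν hν _ => ?_⟩, hall⟩
  · refine self_of_ergodic hμ fun ν hν hνe => ?_
    have := hν.isProb
    exact (h X ν hν hνe).symm
  · have := hν.isProb
    exact (quasiDisjoint_of_self hν hμ h).symm

end Pool.Agent.Results.MP_e732b6_an.SelfQuasiDisjoint
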